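import Pool.Agent.H45.UZ.TarF

/-!
# MP_f6fd33_lc, row FrOk: the free system is a base system
-/

set_option linter.unusedVariables false

open Ordinal Order Set
open scoped ZFSet

namespace SE.UZ

open SF

theorem pf_FrOk (hN : T_FRN) (ha : T_FRa) (h4 : T_FR4) (h6 : T_FR6) : T_FrOk := by
  intro D κ hA b hb
  obtain ⟨n1, n2, n3, n4, n5, n6, n7, n8, n9⟩ := hN D κ hA b hb (b.Fr D) rfl
  obtain ⟨a1, a2, a3, a4, a5, a6, a7, a8, a9, a10, a11, a12, a13, a14⟩ :=
    ha D κ hA b hb (b.Fr D) rfl
  obtain ⟨f1, f2⟩ := h4 D κ hA b hb (b.Fr D) rfl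
  have f6 := h6 D κ hA b hb (b.Fr D) rfl
  exact
    { l3 := a1.1
      sl := a1.2
      nO := n2.1
      nU := n2.2.1
      nL := n2.2.2.1
      nR := n2.2.2.2.1
      nT := n2.2.2.2.2.1
      nS := n2.2.2.2.2.2
      cs := a2
      rk := a3
      leO := a4
      rfl := a5
      trn := a6
      sub := a7
      meet := a8
      tr := a9
      trI := a10
      trS := a11
      bd := f1
      rc := a12
      lb := f2
      sc := a13
      ab := a14
      tru := fun F hF => (f6 F hF).2.2 }

end SE.UZ
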