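import Pool.Agent.H1.UZ.TarPC

/-!
# MP_f6fd33_lc, row PCF: the relations `D_k` are `Σ¹ₖ`
-/

set_option linter.unusedVariables false

open Ordinal Order Set
open scoped ZFSet

namespace SE.UZ

open SF PSR

theorem not_p3_iff (M : V → Prop) (a x : V) : SgH M 3 a x ↔ ¬ P3 M a x := by
  constructor
  · rintro ⟨v1, h1, r1, hn⟩ hP
    apply hn
    obtain ⟨v2, h2, r2, h3⟩ := hP v1 h1 r1
    refine ⟨v2, h2, r2, ?_⟩
    rintro ⟨v3, h3', r3, hn3⟩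
    exact hn3 (h3 v3 h3' r3)
  · intro hn
    unfold P3 at hn
    push Not at hn
    obtain ⟨v1, h1, r1, h⟩ := hn
    refine ⟨v1, h1, r1, ?_⟩
    rintro ⟨v2, h2, r2, hn2⟩
    obtain ⟨v3, h3, r3, h4⟩ := h v2 h2 r2
    exact hn2 ⟨v3, h3, r3, h4⟩

theorem pf_PCF (hH : T_AH) (hI : T_AI) (hW : T_PCW) (hC : T_PCC) : T_PCF := by
  intro M hM L hL j
  have tp : ∀ x y, M x → M y → M (prl x y) := fun x y hx hy =>
    hI.2.2.1.1 M hM (cons x (cons y fun _ => y)) (In.cons (In.cons (fun _ => hy) hy) hx)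
  have tk : ∀ e : ℕ, M (kc e) := fun e =>
    (hI.2.2.2.1 e).1 M hM (fun _ => (∅ : V)) fun _ => hM.mempty
  have rp : ∀ x y, Rl x → Rl y → Rl (prl x y) := fun x y hx hy => (hH.1 x y hx hy).1
  have rk : ∀ e : ℕ, Rl (kc e) := fun e => (hH.2.2.2.1 e).1
  have hd := hW.2.2.2.2.2.2.1
  have hMd : M cwd := (hW.2.2.2.2.2.2.2.2 M hM).2.2.2.2.1
  induction j with
  | zero =>
    obtain ⟨a, ha, ra, h⟩ := hL
    refine ⟨a, ha, ra, fun z hz rz => ?_⟩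
    rw [not_p3_iff, ← h z hz rz, not_not]
    exact Iff.rfl
  | succ j ih =>
    obtain ⟨c0, h0, r0, h⟩ := ih
    obtain ⟨c, hc, rc, h'⟩ := hC M hM (j + 3) cwd hMd hd.1 c0 h0 r0
    refine ⟨c, hc, rc, fun z hz rz => ?_⟩
    have key : ∀ v, M v → Rl v →
        (SgH M (j + 3) c (prl z v) ↔ Dk M L j (prl (prl (kc 1) z) v)) := by
      intro v hv rv
      rw [h' _ (tp z v hz hv) (rp z v rz rv), hd.2 z v rz rv,
        h _ (tp _ _ (tp _ _ (tk 1) hz) hv) (rp _ _ (rp _ _ (rk 1) rz) rv)]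
    constructor
    · rintro ⟨v, hv, rv, hn⟩
      exact ⟨v, hv, rv, fun hD => hn ((key v hv rv).2 hD)⟩
    · rintro ⟨v, hv, rv, hn⟩
      exact ⟨v, hv, rv, fun hD => hn ((key v hv rv).1 hD)⟩

end SE.UZ
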