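import Pool.Agent.H45.UZ.TarP

/-!
# MP_f6fd33_lc, row PW2 (3.2): restriction of worlds; robustness is inherited by extensions
-/

set_option linter.unusedVariables false

open Ordinal Order Set
open scoped ZFSet

namespace SE.UZ

open SF

/-- the basic facts on the sets of labels -/
theorem pw2_cs {D : Cx} {κ : V} (hA : Amb D κ) {b : BS} (hb : b.Ok D κ) {B : V} (hB : B ∈ b.Ob) :
    D.N (b.u B) ∧ Cld D.L (b.u B) ∧ Tr (b.u B) := by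
  have h := hb.cs B hB
  exact ⟨hA.ok.zfc.trans _ hA.ok.hN _ h.h, h.c, fun i hi => (h.c i hi).2⟩

theorem pw2_one (hW : T_PWE) (hS : T_PSJ) (hH : T_PHA) (D : Cx) (κ : V) (hA : Amb D κ) (b : BS)
    (hb : b.Ok D κ) (σ e : Ordinal.{0}) (B h : V) (he : e ≤ σ) (hw : b.Wd D σ B h) :
    b.Wd D e B (hr h e) := by
  rw [hW] at hw ⊢
  obtain ⟨wo, w0, w1, w2, w2', w3⟩ := hw
  obtain ⟨n, c, t⟩ := pw2_cs hA hb wo.o.o
  obtain ⟨p1, p2, p3⟩ := hH D hA.ok (b.u B) (b.u B) h σ n c n c (Subset.refl _) wo.hs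
  obtain ⟨q1, q2, q3, q4, q5⟩ := p2 e
  obtain ⟨j1, j2, j3, j4, j5, j6, j7, j8, j9, j10⟩ := hS b D (b.Wd D)
  have hent : ∀ {G X y : V} {d : Ordinal.{0}}, Ent (hr h e) G X y d → Ent h G X y d :=
    fun hh => ((q5 _ _ _ _).1 hh).1
  constructor
  · exact ⟨wo.o, q2, fun G hG X y y' d d' h1 h2 => wo.f G hG X y y' d d' (hent h1) (hent h2)⟩
  · intro j hj hco
    obtain ⟨h0, hh0, hloc⟩ := w0 j hj hco
    obtain ⟨-, ⟨A, hAB, hAu⟩, -⟩ := wo.o.v j hj hco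
    have hAO : A ∈ b.Ob := (hb.leO A B hAB).1
    obtain ⟨n', c', t'⟩ := pw2_cs hA hb hAO
    rw [hAu] at n' c' t'
    have hmin := j9 e σ (tm j) he
    obtain ⟨r1, r2, r3, r4, r5⟩ := (hH D hA.ok (vw j) (vw j) h0 _ n' c' n' c' (Subset.refl _)
      hh0).2.1 (b.sj D (b.Wd D) e (tm j))
    refine ⟨hr h0 (b.sj D (b.Wd D) e (tm j)), r2, fun G hG X hX y d => ?_⟩
    rw [r5, hloc G hG X hX y d, q5]
    constructor
    · rintro ⟨⟨h1, h2⟩, h3⟩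
      exact ⟨⟨h1, lt_of_lt_of_le h3 (by rw [hmin]; exact min_le_left _ _)⟩, h3⟩
    · rintro ⟨⟨h1, h2⟩, h3⟩
      exact ⟨⟨h1, lt_of_lt_of_le h3 (by rw [hmin]; exact min_le_right _ _)⟩, h3⟩
  · intro j hj hco G hG X y d hE
    exact w1 j hj hco G hG X y d (hent hE)
  · intro d hd hL G hG X hX
    rw [q4 d hd.le, ← w2 d (lt_of_lt_of_le hd he) hL G hG X hX]
    constructor
    · rintro ⟨y, hy⟩
      exact ⟨y, hent hy⟩
    · rintro ⟨y, hy⟩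
      exact ⟨y, (q5 _ _ _ _).2 ⟨hy, hd⟩⟩
  · intro d hd G hG X y hE
    rw [q4 d hd.le]
    exact w2' d (lt_of_lt_of_le hd he) G hG X y (hent hE)
  · intro d hd hL G hG X y hE
    exact w3 d (lt_of_lt_of_le hd he) hL G hG X y (hent hE)

theorem pf_PW2 (hW : T_PWE) (hS : T_PSJ) (hH : T_PHA) (hP : T_PLW) (hL : T_BL) : T_PW2 := by
  intro D κ hA b hb
  refine ⟨fun σ e B h he hw => pw2_one hW hS hH D κ hA b hb σ e B h he hw, ?_⟩
  rintro σ e C h0 B h G X y he hC hB hLW hG ⟨B', h', G', ⟨ew, ele, eg, er⟩, hK⟩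
  obtain ⟨p1, p2, p3, p4, p5⟩ := hP D κ hA b hb
  have wC := ((hW b D e C h0).1 hC).wo
  have wB := ((hW b D σ B h).1 hB).wo
  have wB' := ((hW b D σ B' h').1 ew).wo
  obtain ⟨nC, cC, tC⟩ := pw2_cs hA hb wC.o.o
  obtain ⟨nB, cB, tB⟩ := pw2_cs hA hb wB.o.o
  obtain ⟨nB', cB', tB'⟩ := pw2_cs hA hb wB'.o.o
  have h1 : b.LW D e C h0 B' h' :=
    p2 e C h0 B h B' h' e σ wC.o.o wC.hs wB.hs hLW (p3 σ e B h B' h' he ele)
  have hh0 : hr h0 e = h0 :=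
    ((hH D hA.ok (b.u C) (b.u C) h0 e nC cC nC cC (Subset.refl _) wC.hs).2.1 e).2.2.1 le_rfl
  have h2 : b.LW D e C h0 B' (hr h' e) := by
    have h3 := (p4 e σ e e e C h0 B' h' wC.hs wB'.hs le_rfl le_rfl).2 h1
    rw [hh0] at h3
    exact h3
  have hsub : b.u C ⊆ b.u B := (hb.leO C B hLW.le).2.2
  have hsub' : b.u B ⊆ b.u B' := (hb.leO B B' ele.le).2.2
  have h4 := ((hL D hA.ok (b.u B') G' nB' cB' eg).2 (b.u B) nB hsub' tB).2.2.2.2.2.2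
    (b.u C) hsub
  refine ⟨B', hr h' e, G', ⟨?_, h2, eg, ?_⟩, hK⟩
  · exact pw2_one hW hS hH D κ hA b hb σ e B' h' he ew
  · rw [← h4, er]

end SE.UZ
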