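import Pool.Agent.H75.UZ.TarKO

/-!
# MP_f6fd33_lc, row KO2: the leftmost branch
-/

set_option linter.unusedVariables false

open Ordinal Order Set
open scoped ZFSet

namespace SE.UZ

open SF CAA

theorem ko2_mem_nS {n : ℕ} {x : V} : x ∈ nS n ↔ ∃ j < n, x = nS j := by
  constructor
  · intro h
    obtain ⟨a, ha, rfl⟩ := Ordinal.mem_toZFSet_iff.1 h
    obtain ⟨j, rfl⟩ := Ordinal.lt_omega0.1 (ha.trans (Ordinal.natCast_lt_omega0 n))
    exact ⟨j, by exact_mod_cast ha, rfl⟩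
  · rintro ⟨j, hj, rfl⟩
    exact Ordinal.toZFSet_mem_toZFSet_iff.2 (by exact_mod_cast hj)

/-- `p` is leftmost up to `n` (inclusive) -/
def KO2L (P k p n : V) : Prop := ∀ p' ∈ P, ∀ m ∈ insert n n,
  (∀ i ∈ m, app k (ZFSet.pair p i) = app k (ZFSet.pair p' i)) →
    app k (ZFSet.pair p m) ⊆ app k (ZFSet.pair p' m)

theorem ko2_dfb : Dfb ZFm (fun _ v => KO2L (v 0) (v 1) (v 2) (v 3)) := by
  have h1 : Dfb ZFm (fun _ v => app (v 4) (ZFSet.pair (v 5) (v 0)) =
      app (v 4) (ZFSet.pair (v 2) (v 0))) :=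
    Dfb.eq (Tm.app (Tm.var 4) (Tm.pair (Tm.var 5) (Tm.var 0)))
      (Tm.app (Tm.var 4) (Tm.pair (Tm.var 2) (Tm.var 0)))
  have h2 : Dfb ZFm (fun _ v => ∀ i ∈ v 0, app (v 3) (ZFSet.pair (v 4) i) =
      app (v 3) (ZFSet.pair (v 1) i)) := h1.ball ktr_zfm (Tm.var 0)
  have h3 : Dfb ZFm (fun _ v => app (v 3) (ZFSet.pair (v 4) (v 0)) ⊆
      app (v 3) (ZFSet.pair (v 1) (v 0))) :=
    Dfb.subset (Tm.app (Tm.var 3) (Tm.pair (Tm.var 4) (Tm.var 0)))
      (Tm.app (Tm.var 3) (Tm.pair (Tm.var 1) (Tm.var 0)))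
  have h4 := (h2.imp h3).ball ktr_zfm (Tm.ins (Tm.var 4) (Tm.var 4))
  exact h4.ball ktr_zfm (Tm.var 0)

/-- the leftmost branch -/
noncomputable def KO2q (P k : V) : V := resS om fun n =>
  (⋃₀ (imS (P.sep fun p => KO2L P k p n) fun p => app k (ZFSet.pair p n)) : ZFSet)

theorem ko2_tm : Tm ZFm (fun _ v => KO2q (v 0) (v 1)) := by
  have h1 : Tm ZFm (fun _ v => (v 1).sep fun p => KO2L (v 1) (v 2) p (v 0)) :=
    Tm.sep (R := fun _ v => KO2L (v 2) (v 3) (v 0) (v 1))
      (ko2_dfb.comp (fun i => if i = 0 then fun _ v => v 2 else if i = 1 then fun _ v => v 3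
        else if i = 2 then fun _ v => v 0 else fun _ v => v 1) (by
          intro i
          split_ifs
          · exact Tm.var 2
          · exact Tm.var 3
          · exact Tm.var 0
          · exact Tm.var 1)) (Tm.var 1)
  have h2 : Tm ZFm (fun _ v => imS ((v 1).sep fun p => KO2L (v 1) (v 2) p (v 0))
      fun p => app (v 2) (ZFSet.pair p (v 0))) :=
    Tm.image (g := fun _ v => app (v 3) (ZFSet.pair (v 0) (v 1))) h1
      (Tm.app (Tm.var 3) (Tm.pair (Tm.var 0) (Tm.var 1)))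
  exact Tm.resS (g := fun _ v => (⋃₀ (imS ((v 1).sep fun p => KO2L (v 1) (v 2) p (v 0))
      fun p => app (v 2) (ZFSet.pair p (v 0))) : ZFSet)) Tm.om (Tm.sUnion h2)

theorem t_ko2 : T_KO2 := by
  intro W hW P k hP hk hne hord
  choose! κ hκ using hord
  -- numerical version
  let L : V → ℕ → Prop := fun p n => ∀ p' ∈ P, ∀ m < n,
    (∀ i < m, κ p i = κ p' i) → κ p m ≤ κ p' m
  have hinj : ∀ a b : Ordinal.{0}, a.toZFSet = b.toZFSet ↔ a = b := fun a b =>
    Ordinal.toZFSet_injective.eq_iff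
  have hL : ∀ p ∈ P, ∀ n : ℕ, (KO2L P k p (nS n) ↔ L p (n + 1)) := by
    intro p hp n
    constructor
    · intro h p' hp' m hm hi
      have h1 := h p' hp' (nS m) (by
        rw [← nS_succ, ko2_mem_nS]
        exact ⟨m, hm, rfl⟩) (by
        intro x hx
        obtain ⟨i, hi1, rfl⟩ := ko2_mem_nS.1 hx
        rw [hκ p hp i, hκ p' hp' i, hi i hi1])
      rw [hκ p hp m, hκ p' hp' m, Ordinal.toZFSet_subset_toZFSet_iff] at h1
      exact h1
    · intro h p' hp' x hx hi
      rw [← nS_succ, ko2_mem_nS] at hx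
      obtain ⟨m, hm, rfl⟩ := hx
      rw [hκ p hp m, hκ p' hp' m, Ordinal.toZFSet_subset_toZFSet_iff]
      refine h p' hp' m hm fun i him => ?_
      have h1 := hi (nS i) (ko2_mem_nS.2 ⟨i, him, rfl⟩)
      rw [hκ p hp i, hκ p' hp' i, hinj] at h1
      exact h1
  -- (2)
  have h2 : ∀ p ∈ P, ∀ p' ∈ P, ∀ n, L p n → L p' n → ∀ i < n, κ p i = κ p' i := by
    intro p hp p' hp' n h h' i
    induction i using Nat.strong_induction_on with
    | _ i ih =>
      intro hi
      apply le_antisymm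
      · exact h p' hp' i hi fun j hj => ih j hj (hj.trans hi)
      · exact h' p hp i hi fun j hj => (ih j hj (hj.trans hi)).symm
  have hmono : ∀ p n m, m ≤ n → L p n → L p m := fun p n m hmn h p' hp' j hj =>
    h p' hp' j (lt_of_lt_of_le hj hmn)
  -- (3)
  have h3 : ∀ n, ∃ p ∈ P, L p n := by
    intro n
    induction n with
    | zero =>
      obtain ⟨p, hp⟩ := hne
      exact ⟨p, hp, fun p' hp' m hm => absurd hm (Nat.not_lt_zero m)⟩
    | succ n ih =>
      obtain ⟨p0, hp0, hL0⟩ := ih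
      let S : Set V := {p | p ∈ P ∧ L p n}
      have hS : S.Nonempty := ⟨p0, hp0, hL0⟩
      obtain ⟨p, hpS, hmin⟩ := (InvImage.wf (fun p : V => κ p n)
        Ordinal.lt_wf).has_min S hS
      refine ⟨p, hpS.1, ?_⟩
      intro p' hp' m hm hi
      rcases Nat.lt_succ_iff_lt_or_eq.1 hm with hlt | rfl
      · exact hpS.2 p' hp' m hlt hi
      · by_contra hcon
        rw [not_le] at hcon
        refine hmin p' ⟨hp', ?_⟩ hcon
        intro p'' hp'' j hj hjj
        rw [← hi j hj]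
        exact hpS.2 p'' hp'' j hj fun i hij => by
          rw [hi i (hij.trans hj), hjj i hij]
  -- the branch
  refine ⟨KO2q P k, ko2_tm.1 W hW (cons P (cons k fun _ => k))
    (In.cons (In.cons (fun _ => hk) hk) hP), ?_⟩
  have hq : ∀ n : ℕ, ∀ p ∈ P, L p (n + 1) → app (KO2q P k) (nS n) = (κ p n).toZFSet := by
    intro n p hp hLp
    unfold KO2q
    rw [app_resS (nS_mem_om n)]
    ext x
    rw [ZFSet.mem_sUnion]
    constructor
    · rintro ⟨y, hy, hxy⟩
      obtain ⟨p', hp', rfl⟩ := mem_imS.1 hy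
      rw [ZFSet.mem_sep] at hp'
      have h4 := h2 p hp p' hp'.1 (n + 1) hLp ((hL p' hp'.1 n).1 hp'.2) n (Nat.lt_succ_self n)
      rw [hκ p' hp'.1 n, ← h4] at hxy
      exact hxy
    · intro hx
      refine ⟨app k (ZFSet.pair p (nS n)), ?_, ?_⟩
      · rw [mem_imS]
        exact ⟨p, ZFSet.mem_sep.2 ⟨hp, (hL p hp n).2 hLp⟩, rfl⟩
      · rw [hκ p hp n]
        exact hx
  constructor
  · intro n
    obtain ⟨p, hp, hLp⟩ := h3 (n + 1)
    refine ⟨p, hp, fun i hi => ?_⟩
    rw [hq i p hp (hmono p (n + 1) (i + 1) (by omega) hLp), hκ p hp i]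
  · intro p hp
    by_cases hall : ∀ i : ℕ, app (KO2q P k) (nS i) = app k (ZFSet.pair p (nS i))
    · exact Or.inl hall
    · right
      push Not at hall
      classical
      let n := Nat.find hall
      have hn : app (KO2q P k) (nS n) ≠ app k (ZFSet.pair p (nS n)) := Nat.find_spec hall
      have hlt : ∀ i < n, app (KO2q P k) (nS i) = app k (ZFSet.pair p (nS i)) := fun i hi => by
        by_contra hcon
        exact Nat.find_min hall hi hcon
      refine ⟨n, hlt, ?_⟩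
      obtain ⟨p0, hp0, hL0⟩ := h3 (n + 1)
      have e : ∀ i ≤ n, app (KO2q P k) (nS i) = (κ p0 i).toZFSet := fun i hi =>
        hq i p0 hp0 (hmono p0 (n + 1) (i + 1) (by omega) hL0)
      have h5 : κ p0 n ≤ κ p n := by
        refine hL0 p hp n (Nat.lt_succ_self n) fun i hi => ?_
        have h6 := hlt i hi
        rw [e i hi.le, hκ p hp i, hinj] at h6
        exact h6
      rw [e n le_rfl, hκ p hp n] at hn ⊢
      rw [Ordinal.toZFSet_mem_toZFSet_iff]
      refine lt_of_le_of_ne h5 fun h7 => hn ?_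
      rw [h7]

end SE.UZ
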