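import Pool.Agent.H45.UZ.TarP

/-!
# MP_f6fd33_lc, row PDB: decided properties
-/

set_option linter.unusedVariables false

open Ordinal Order Set
open scoped ZFSet

namespace SE.UZ

open SF

theorem pf_PDB (hJ : T_BJ) (hL : T_BL) (hZX : T_ZX) : T_PDB := by
  intro D hD ρ hρ hc X hX
  obtain ⟨z1, z2, z3⟩ := hZX D hD ρ hρ hc X hX
  refine ⟨z1, z2, ?_, ?_, ?_⟩
  · intro Y hY
    obtain ⟨O, hO, h⟩ := hX
    exact ⟨O, hO, fun G hG => (hY G hG).trans (h G hG)⟩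
  · intro G hG hXG
    obtain ⟨p, hp, h⟩ := z3 G hG hXG
    exact ⟨p, hp, (((hJ D hD).2.2.2.2 ρ hρ hc).2 G hG).2.1.1 hp, h⟩
  · intro ρ' hρ' hc' hsub
    obtain ⟨O, hO, h⟩ := hX
    have hTr : Tr ρ := fun i hi => (hc i hi).2
    have t : Tm ZFm (fun _ v => (v 0).sep fun p => dm p ⊆ v 1) :=
      Tm.sep (R := fun _ v => dm (v 0) ⊆ v 2)
        (Dfb.subset (Tm.dm (Tm.var 0)) (Tm.var 2)) (Tm.var 0)
    have hN : D.N (O.sep fun p => dm p ⊆ ρ) :=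
      t.1 D.N hD.zfc.toZFm (cons O (cons ρ fun _ => ρ)) (In.cons (In.cons (fun _ => hρ) hρ) hO)
    refine ⟨O.sep fun p => dm p ⊆ ρ, hN, fun G hG => ?_⟩
    obtain ⟨b1, b2⟩ := hL D hD ρ' G hρ' hc' hG
    obtain ⟨c1, c2, c3, c4, c5⟩ := b2 ρ hρ hsub hTr
    refine (h (gs G ρ) c1).trans ?_
    constructor
    · rintro ⟨p, hp, hpO⟩
      rw [c4] at hp
      exact ⟨p, hp.1, ZFSet.mem_sep.2 ⟨hpO, hp.2⟩⟩
    · rintro ⟨p, hp, hpO⟩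
      rw [ZFSet.mem_sep] at hpO
      exact ⟨p, (c4 p).2 ⟨hp, hpO.2⟩, hpO.1⟩

end SE.UZ
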